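import Pool.Agent.Q189.IB.All

/-!
# Products of Gamma values at rational points: the transcendence is decided at one integer

Let `a_0, …, a_k` be rational numbers, none of them in `{0, -1, -2, …}`, `r = k + 1`, and let `a'_j ∈ (0, 1]` be the
representatives modulo `1` and `A_j = a'_(j+1) + ⋯ + a'_k`. Then `∏ Γ(a_j)` is a rational multiple of
`Γ(∑ a'_j) ∏_c B(u_c, v_c)^(m_c)`, where `(u_c, v_c)` are the different pairs `({a'_j}, {A_j})` with both entries nonzero and
`m_c` are their multiplicities. Rohrlich's conjecture says when this product is an algebraic multiple of `π^(r/2)`; the open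
part is that it is a transcendental multiple for all other tuples.

For an integer `n ≥ 2` we cut each beta integral at `1/n`: let `b_c(n) = ∫_0^(1/n) t^(u_c-1) (1-t)^(v_c-1) dt` and
`b'_c(n) = ∫_(1/n)^1`. The products `∏_c b_c(n)^(i_c) b'_c(n)^(m_c-i_c)`, `0 ≤ i_c ≤ m_c`, have the obvious linear combination
`∏_c B(u_c, v_c)^(m_c)` with coefficients `∏_c binom(m_c, i_c)`, so they are linearly dependent with `π^(r/2) / Γ(∑ a'_j)` over the
field `ℚ(∏ Γ(a_j) / π^(r/2))` if this product is algebraic. The theorem: if it is transcendental, then for every `δ` these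
numbers are linearly independent over all number fields of degree at most `δ`, for all `n ≤ T` with at most
`C T^(1-c)` exceptions. So `∏ Γ(a_j)` is not an algebraic multiple of `π^(r/2)` if and only if for each `δ` there is ONE `n ≥ 2`
without a linear relation over a number field of degree at most `δ`.

Proof. The functions `x^(-u) (1-x)^(-v) ∫_0^x t^(u-1) (1-t)^(v-1) dt` for incongruent pairs `(u, v)` are G-functions (Galochkin's
condition is verified at the point `1/2`) which are algebraically independent over `ℚ(x)`. By the transfer theorem of helper246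
(`Pool.Agent.Q246.LN`) a polynomial relation over `ℤ` of bounded degree between their values at `1/n` and arbitrary
constants is for almost all `n` an identity; the constants are here the beta values and `π^(r/2) / Γ(∑ a'_j)`. For relations over a
number field (which here contains `n^(1/D)` and `(n-1)^(1/D)`) we take norms, and the conjugate identity still implies that the
product is algebraic or that all coefficients are zero.
-/

set_option autoImplicit false

namespace Pool.Agent.Results.MP_c2409d_nt.GammaProductsAtOneInteger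

/-- the incomplete beta integral `∫_0^x t^(u-1) (1-t)^(v-1) dt` -/
noncomputable def beta (u v x : ℝ) : ℝ := ∫ t in (0 : ℝ)..x, t ^ (u - 1) * (1 - t) ^ (v - 1)

/-- the representative modulo `1` in `(0, 1]` -/
def rep (a : ℚ) : ℚ := a - ⌈a⌉ + 1

/-- `b_(j+1) + ⋯ + b_k` -/
def tail {k : ℕ} (b : Fin (k + 1) → ℚ) (j : Fin k) : ℚ := ∑ i : Fin (k + 1), if j.castSucc < i then b i else 0

/-- `(u_c, v_c)`, `c < s`, are the different pairs `({b_j}, {b_(j+1) + ⋯ + b_k})`, `j < k`, of fractional parts with both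
entries nonzero, and `m_c` is the number of the `j < k` with the pair `(u_c, v_c)`. -/
structure Pairs {k : ℕ} (b : Fin (k + 1) → ℚ) {s : ℕ} (u v : Fin s → ℚ) (m : Fin s → ℕ) : Prop where
  /-- the pairs are different -/
  inj : ∀ c c', u c = u c' → v c = v c' → c = c'
  /-- the entries are not zero -/
  ne : ∀ c, u c ≠ 0 ∧ v c ≠ 0
  /-- each of them occurs -/
  mem : ∀ c, ∃ j : Fin k, Int.fract (b j.castSucc) = u c ∧ Int.fract (tail b j) = v c
  /-- there are no others -/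
  all : ∀ j : Fin k, Int.fract (b j.castSucc) ≠ 0 → Int.fract (tail b j) ≠ 0 →
    ∃ c, Int.fract (b j.castSucc) = u c ∧ Int.fract (tail b j) = v c
  /-- the multiplicities -/
  card : ∀ c, m c = (Finset.univ.filter fun j : Fin k => Int.fract (b j.castSucc) = u c ∧ Int.fract (tail b j) = v c).card

/-- the product of the `b_c(n)^(i_c) b'_c(n)^(m_c - i_c)`, where `b_c(n) = ∫_0^(1/n) t^(u_c-1) (1-t)^(v_c-1) dt` and
`b'_c(n) = ∫_0^(1-1/n) t^(v_c-1) (1-t)^(u_c-1) dt = ∫_(1/n)^1 t^(u_c-1) (1-t)^(v_c-1) dt` -/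
noncomputable def product {s : ℕ} (u v : Fin s → ℚ) (m : Fin s → ℕ) (n : ℕ) (i : ∀ c, Fin (m c + 1)) : ℝ :=
  ∏ c, beta (u c) (v c) (1 / n) ^ (i c : ℕ) * beta (v c) (u c) (1 - 1 / n) ^ (m c - i c)

/-- the number `w` and the products -/
noncomputable def numbers {s : ℕ} (u v : Fin s → ℚ) (m : Fin s → ℕ) (w : ℂ) (n : ℕ) (o : Option (∀ c, Fin (m c + 1))) : ℂ :=
  o.elim w fun i => ((product u v m n i : ℝ) : ℂ)

/-- `w` and the products are linearly independent over every number field of degree at most `δ` -/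
def Independent {s : ℕ} (u v : Fin s → ℚ) (m : Fin s → ℕ) (w : ℂ) (δ n : ℕ) : Prop :=
  ∀ K : IntermediateField ℚ ℂ, FiniteDimensional ℚ K → Module.finrank ℚ K ≤ δ → LinearIndependent K (numbers u v m w n)

/-- `∏ Γ(a_j)` is an algebraic multiple of `π^(r/2)`, `r = k + 1` -/
def AlgebraicMultiple {k : ℕ} (a : Fin (k + 1) → ℚ) : Prop :=
  ∃ α : ℝ, IsAlgebraic ℚ α ∧ ∏ j, Real.Gamma (a j : ℝ) = α * Real.pi ^ (((k + 1 : ℕ) : ℝ) / 2)

/-- the number `π^(r/2) / Γ(∑ a'_j)` -/
noncomputable def quotient {k : ℕ} (a : Fin (k + 1) → ℚ) : ℝ :=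
  Real.pi ^ (((k + 1 : ℕ) : ℝ) / 2) / Real.Gamma ((∑ j, rep (a j) : ℚ) : ℝ)

/-- (1) the criterion, with the number of exceptions; (2) arbitrary products of beta values with an arbitrary factor `1/w`:
the constants do not depend on `w`; (3) the obvious linear combination. -/
theorem result :
    (∀ (k : ℕ) (a : Fin (k + 1) → ℚ), (∀ j (n : ℕ), a j ≠ -(n : ℚ)) →
      (∃ (s : ℕ) (u v : Fin s → ℚ) (m : Fin s → ℕ), Pairs (fun j => rep (a j)) u v m) ∧
      ∀ (s : ℕ) (u v : Fin s → ℚ) (m : Fin s → ℕ), Pairs (fun j => rep (a j)) u v m →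
        (¬ AlgebraicMultiple a ↔ ∀ δ : ℕ, ∃ n : ℕ, 2 ≤ n ∧ Independent u v m (quotient a : ℝ) δ n) ∧
        (¬ AlgebraicMultiple a ↔ ∀ δ : ℕ, ∃ C c : ℝ, 0 < c ∧ ∀ T : ℕ, 1 ≤ T →
          (({n : ℕ | 2 ≤ n ∧ n ≤ T ∧ ¬ Independent u v m (quotient a : ℝ) δ n}.ncard : ℕ) : ℝ) ≤ C * (T : ℝ) ^ (1 - c))) ∧
    ∀ (s : ℕ) (u v : Fin s → ℚ), (∀ c, 0 < u c ∧ 0 < v c) → (∀ c (z : ℤ), u c ≠ z ∧ v c ≠ z) →
      (∀ c c', c ≠ c' → ¬ ((∃ z : ℤ, u c - u c' = z) ∧ ∃ z : ℤ, v c - v c' = z)) → ∀ (m : Fin s → ℕ),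
      (∀ δ : ℕ, ∃ C c : ℝ, 0 < c ∧ ∀ w : ℂ, w ≠ 0 →
        Transcendental ℚ (w⁻¹ * ∏ c, ((beta (u c) (v c) 1 : ℝ) : ℂ) ^ m c) → ∀ T : ℕ, 1 ≤ T →
          (({n : ℕ | 2 ≤ n ∧ n ≤ T ∧ ¬ Independent u v m w δ n}.ncard : ℕ) : ℝ) ≤ C * (T : ℝ) ^ (1 - c)) ∧
      ∀ n : ℕ, 2 ≤ n → ∑ i : ∀ c, Fin (m c + 1), ((∏ c, (m c).choose (i c) : ℕ) : ℝ) * product u v m n i =
        ∏ c, beta (u c) (v c) 1 ^ m c := by
  refine ⟨fun k a ha => ⟨?_, fun s u v m hE => ?_⟩, fun s u v h1 h2 h3 m => ⟨fun δ => ?_, fun n hn => ?_⟩⟩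
  · obtain ⟨s, u, v, m, h⟩ := Pool.Agent.Q189.IB.ENUM k (fun j => rep (a j))
    exact ⟨s, u, v, m, ⟨h.inj, h.ne, h.mem, h.all, h.card⟩⟩
  · exact Pool.Agent.Q189.IB.ROHR ha (⟨hE.inj, hE.ne, hE.mem, hE.all, hE.card⟩)
  · exact Pool.Agent.Q189.IB.FEW h1 h2 h3 m δ
  · exact Pool.Agent.Q189.IB.SUM h1 m hn

end Pool.Agent.Results.MP_c2409d_nt.GammaProductsAtOneInteger
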