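import Pool.Agent.H104.RN.A

/-!
# Products of gamma values `B(q_j, ρ_i) = Γ(q_j) Γ(ρ_i) / Γ(q_j + ρ_i)` with parameters close to given real numbers

Let `ρ_1, …, ρ_m` be positive real (for instance rational) numbers such that no `ρ_i` and no `ρ_i - ρ_k`, `i ≠ k`, is an
integer. A tuple `q` of positive rational numbers with denominators at most `T` is exceptional (for a number field `K ⊂ ℂ`,
complex numbers `ξ_1, …, ξ_g`, a degree `d` and exponents `A`, `R`) if there is a polynomial relation of degree at most `d` in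
each variable between the `m n` numbers `B(q_j, ρ_i) = ∫_0^1 x^(q_j-1) (1-x)^(ρ_i-1) dx`, exact or up to `T ^ (-R)`, with
coefficients `∑ c_k ξ_k`, `c_k` integers of `K` with conjugates of absolute value at most `T ^ A`. The relations of the problem
(a product of such numbers is an algebraic multiple of a power of `π`) are of this form, with `ξ = (1, π ^ s)`.

Let `X ⊂ ℂ` and `Y ⊂ ℝ` be countable and `θ > 0`. Outside a set `Z ⊂ ℝ ^ n` of Hausdorff dimension at most `2 (n - 1) / θ` (so of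
dimension zero if `n = 1`) every `z` with positive coordinates has the following property: for all `ρ ∈ Y ^ m`, `K`, `ξ ∈ X ^ g`,
`d`, `A` there is `R` such that for all large `T` no exceptional tuple `q` (with denominators at most `T`) has
`|q_j - z_j| ≤ T ^ (-θ)` for all `j`. In particular for all `ρ`, `K`, `s`, `d`, `A`, all large `T` and all positive rational `q_j`
with denominators at most `T` and `|q_j - z_j| ≤ T ^ (-θ)` no product `∏ (Γ(q_j) Γ(ρ_i) / Γ(q_j + ρ_i)) ^ (e_ji)`, with integers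
`e_ji`, not all zero, `|e_ji| ≤ d`, is equal to `(u / v) (√π) ^ s` with integers `u`, `v ≠ 0` of `K` all of whose conjugates have
absolute value at most `T ^ A`.

(The set of all `z` with arbitrarily good approximations by rational tuples at the rate `T ^ (-θ)` has dimension
`min(n, 2 n / θ)`; if `n = 1` and `θ < 2` every `z` is close to many rational numbers `q`.)
-/

set_option autoImplicit false

open NumberField Filter

namespace Pool.Agent.Results.MP_c2409d_nt.NearGivenPoints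

/-- Euler's integral `B(r, s) = ∫_0^1 x^(r-1) (1-x)^(s-1) dx`. -/
noncomputable def B (r s : ℝ) : ℝ := ∫ x in (0 : ℝ)..1, x ^ (r - 1) * (1 - x) ^ (s - 1)

/-- No `ρ_i` and no `ρ_i - ρ_k`, `i ≠ k`, is an integer, and the `ρ_i` are positive. -/
def Generic {m : ℕ} (ρ : Fin m → ℝ) : Prop :=
  (∀ i, 0 < ρ i) ∧ (∀ i, ∀ z : ℤ, ρ i ≠ z) ∧ ∀ i k, i ≠ k → ∀ z : ℤ, ρ i - ρ k ≠ z

/-- The tuple `q` is exceptional: the `q_j` are positive, with denominators at most `T`, and there is a polynomial `P` of degree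
at most `d` in each of `m n` variables, with coefficients of the form `∑ ξ_i c_i`, where the `c_i` are integers of the number
field `K` all of whose conjugates have absolute value at most `T ^ A`, such that the value of `P` at the numbers `B(q_j, ρ_i)` is
at most `T ^ (-R)` times the absolute value of some nonzero coefficient of `P`. -/
def Exceptional {n m g : ℕ} (d : ℕ) (ρ : Fin m → ℝ) (K : IntermediateField ℚ ℂ) [NumberField K]
    (ξ : Fin g → ℂ) (A R T : ℝ) (q : Fin n → ℚ) : Prop :=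
  (∀ j, 0 < q j ∧ ((q j).den : ℝ) ≤ T) ∧
    ∃ P : MvPolynomial (Fin n × Fin m) ℂ, (∀ x, P.degreeOf x ≤ d) ∧
    (∀ s, ∃ c : Fin g → 𝓞 K, (∀ i (φ : K →+* ℂ), ‖φ (c i)‖ ≤ T ^ A) ∧
      P.coeff s = ∑ i, ξ i * algebraMap K ℂ (c i)) ∧
    ∃ s₀, P.coeff s₀ ≠ 0 ∧
      ‖MvPolynomial.aeval (fun x : Fin n × Fin m => (B (q x.1) (ρ x.2) : ℂ)) P‖ ≤ T ^ (-R) * ‖P.coeff s₀‖

open Pool.Agent H104.RN Pool.Agent.Q138.PS

theorem exc_of {n m g d : ℕ} {ρ : Fin m → ℝ} (hρ : Generic ρ) {K : IntermediateField ℚ ℂ} [NumberField K]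
    {ξ : Fin g → ℂ} {A R T a b : ℝ} {q : Fin n → ℚ} (h : Exceptional d ρ K ξ A R T q)
    (hq : ∀ j, a ≤ (q j : ℝ) ∧ (q j : ℝ) ≤ b) :
    q ∈ Exc n d ρ K (algebraMap K ℂ) ξ a b A R T := by
  obtain ⟨h1, P, hP, hc, s₀, hs, hv⟩ := h
  refine ⟨fun j => ⟨(hq j).1, (hq j).2, (h1 j).2⟩, P, hP, hc, s₀, hs, ?_⟩
  have h3 : (fun x : Fin n × Fin m => (B (q x.1) (ρ x.2) : ℂ)) =
      fun x : Fin n × Fin m => ((TH818.AP.Bt (ρ x.2) (q x.1) : ℝ) : ℂ) := by
    funext x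
    have h4 : (0 : ℝ) < (q x.1 : ℝ) := by exact_mod_cast (h1 x.1).1
    rw [← TH818.AP.betaInt (ρ x.2) (q x.1) (hρ.1 x.2) h4]
    rfl
  rw [h3] at hv
  exact hv

/-- The real points inside the complex ones. -/
def emb (n : ℕ) (z : Fin n → ℝ) : Fin n → ℂ := fun j => (z j : ℂ)

theorem emb_isometry (n : ℕ) : Isometry (emb n) := by
  refine Isometry.of_dist_eq fun x y => ?_
  refine le_antisymm ?_ ?_
  · refine (dist_pi_le_iff dist_nonneg).2 fun j => ?_
    have h1 : dist (emb n x j) (emb n y j) = dist (x j) (y j) := Complex.isometry_ofReal.dist_eq _ _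
    rw [h1]
    exact dist_le_pi_dist x y j
  · refine (dist_pi_le_iff dist_nonneg).2 fun j => ?_
    have h1 : dist (emb n x j) (emb n y j) = dist (x j) (y j) := Complex.isometry_ofReal.dist_eq _ _
    rw [← h1]
    exact dist_le_pi_dist (emb n x) (emb n y) j

theorem dim_emb {n : ℕ} (Z : Set (Fin n → ℂ)) : dimH (emb n ⁻¹' Z) ≤ dimH Z :=
  (emb_isometry n).antilipschitz.dimH_preimage_le Z

theorem norm_emb {n : ℕ} (q : Fin n → ℚ) (z : Fin n → ℝ) (j : Fin n) :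
    ‖algebraMap ℚ ℂ (q j) - emb n z j‖ = |(q j : ℝ) - z j| := by
  have h : algebraMap ℚ ℂ (q j) - emb n z j = (((q j : ℝ) - z j : ℝ) : ℂ) := by
    unfold emb
    push_cast
    rfl
  rw [h, Complex.norm_real, Real.norm_eq_abs]

/-- The main part. -/
theorem near (n : ℕ) (X : Set ℂ) (hX : X.Countable) (Y : Set ℝ) (hY : Y.Countable) (θ : ℝ) (hθ : 0 < θ) :
    ∃ Z : Set (Fin n → ℝ), dimH Z ≤ ENNReal.ofReal (2 * ((n - 1 : ℕ) : ℝ) / θ) ∧ ∀ z, z ∉ Z → (∀ j, 0 < z j) →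
      ∀ (m : ℕ) (ρ : Fin m → ℝ), Generic ρ → (∀ i, ρ i ∈ Y) →
      ∀ (K : IntermediateField ℚ ℂ) [NumberField K] (g : ℕ) (ξ : Fin g → ℂ), (∀ i, ξ i ∈ X) →
      ∀ (d : ℕ) (A : ℝ), ∃ R : ℝ, ∀ᶠ T : ℝ in atTop, ∀ q : Fin n → ℚ,
        Exceptional d ρ K ξ A R T q → ∃ j, T ^ (-θ) < |(q j : ℝ) - z j| := by
  have hcN := countN
  have hcX := hX.to_subtype
  have hcY := hY.to_subtype
  let J : Type := {K : IntermediateField ℚ ℂ // NumberField K} × (Σ g : ℕ, Fin g → X) × (Σ m : ℕ, Fin m → Y) ×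
    ℕ × ℕ × ℕ
  let E : J → ℝ → ℝ → Set (Fin n → ℚ) := fun i R T =>
    haveI := i.1.2
    {q | Generic (fun k => (i.2.2.1.2 k : ℝ)) ∧ q ∈ Exc n i.2.2.2.1 (fun k => (i.2.2.1.2 k : ℝ)) i.1.1
      (algebraMap i.1.1 ℂ) (fun k => (i.2.1.2 k : ℂ)) (((i.2.2.2.2.2 : ℕ) : ℝ) + 1)⁻¹
      (((i.2.2.2.2.2 : ℕ) : ℝ) + 1) (i.2.2.2.2.1 : ℝ) R T}
  have key : ∀ (i : J) (t : ℕ), ∃ R : ℝ, dimH (Close (algebraMap ℚ ℂ) (E i R) θ) ≤
      ENNReal.ofReal ((2 * ((n - 1 : ℕ) : ℝ) + 1 / ((t : ℝ) + 1)) / θ) := by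
    rintro ⟨⟨K, hK⟩, ⟨g, ξ⟩, ⟨m, ρ⟩, d, A, k⟩ t
    by_cases hρ : Generic (fun k => (ρ k : ℝ))
    · have hk : (0 : ℝ) < (k : ℝ) + 1 := by positivity
      have ht : (0 : ℝ) < 1 / ((t : ℝ) + 1) := by positivity
      obtain ⟨R, C, T₀, hT₀, H⟩ := count (Module.finrank ℚ K) n m g d (fun k => (ρ k : ℝ)) hρ.1 hρ.2.1 hρ.2.2
        (inv_pos.2 hk) hk.le (max (A : ℝ) 0) (1 / ((t : ℝ) + 1)) ht
      refine ⟨max R 0 + 1, ?_⟩
      refine (dimH_mono ?_).trans (dim_close (A := (A : ℝ)) (R := R) (θ := θ) (inv_pos.2 hk) hT₀ ht hθ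
        fun T hT => H K le_rfl (algebraMap K ℂ) (fun k => (ξ k : ℂ)) T hT)
      intro z hz
      refine Frequently.mono hz ?_
      rintro T ⟨s, hs, h⟩
      exact ⟨s, hs.2, h⟩
    · refine ⟨0, ?_⟩
      have h0 : Close (algebraMap ℚ ℂ) (E ⟨⟨K, hK⟩, ⟨g, ξ⟩, ⟨m, ρ⟩, d, A, k⟩ 0) θ = ∅ := by
        rw [Set.eq_empty_iff_forall_notMem]
        intro z hz
        obtain ⟨T, s, hs, -⟩ := hz.exists
        exact hρ hs.1
      rw [h0, dimH_empty]
      exact bot_le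
  choose R hR using key
  refine ⟨emb n ⁻¹' (⋃ i : J, ⋂ t : ℕ, Close (algebraMap ℚ ℂ) (E i (R i t)) θ), ?_, ?_⟩
  · refine (dim_emb _).trans ?_
    rw [dimH_iUnion]
    refine iSup_le fun i => ?_
    have h1 : ∀ t : ℕ, dimH (⋂ t : ℕ, Close (algebraMap ℚ ℂ) (E i (R i t)) θ) ≤
        ENNReal.ofReal ((2 * ((n - 1 : ℕ) : ℝ) + 1 / ((t : ℝ) + 1)) / θ) := fun t =>
      (dimH_mono (Set.iInter_subset _ t)).trans (hR i t)
    have h2 : Tendsto (fun t : ℕ => ENNReal.ofReal ((2 * ((n - 1 : ℕ) : ℝ) + 1 / ((t : ℝ) + 1)) / θ)) atTop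
        (nhds (ENNReal.ofReal (2 * ((n - 1 : ℕ) : ℝ) / θ))) := by
      refine ENNReal.tendsto_ofReal ?_
      have h3 := (tendsto_one_div_add_atTop_nhds_zero_nat (𝕜 := ℝ)).const_add (2 * ((n - 1 : ℕ) : ℝ))
      rw [add_zero] at h3
      exact h3.div_const θ
    exact ge_of_tendsto' h2 h1
  · intro z hz hz0 m ρ hρ hρY K hK g ξ hξ d A
    obtain ⟨k, hk⟩ := exists_nat_ge (∑ j, (2 / z j + z j))
    have hkj : ∀ j, 2 / z j + z j ≤ k := fun j =>
      (Finset.single_le_sum (f := fun j => 2 / z j + z j) (fun j _ => by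
        have := hz0 j
        positivity) (Finset.mem_univ j)).trans hk
    obtain ⟨i, hi⟩ : ∃ i : J, i = ⟨⟨K, hK⟩, ⟨g, fun k => ⟨ξ k, hξ k⟩⟩, ⟨m, fun k => ⟨ρ k, hρY k⟩⟩, d, ⌈A⌉₊, k⟩ :=
      ⟨_, rfl⟩
    have h1 : ∃ t : ℕ, emb n z ∉ Close (algebraMap ℚ ℂ) (E i (R i t)) θ := by
      by_contra hcon
      push Not at hcon
      exact hz (Set.mem_iUnion.2 ⟨i, Set.mem_iInter.2 hcon⟩)
    obtain ⟨t, ht⟩ := h1
    refine ⟨R i t, ?_⟩
    have h2 : ¬ ∃ᶠ T : ℝ in atTop, ∃ s ∈ E i (R i t) T, ∀ j, ‖algebraMap ℚ ℂ (s j) - emb n z j‖ ≤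
        T ^ (-θ) := ht
    rw [not_frequently] at h2
    have h3 : ∀ᶠ T : ℝ in atTop, ∀ j, T ^ (-θ) ≤ min (z j / 2) 1 := by
      rw [eventually_all]
      intro j
      have h4 : Tendsto (fun T : ℝ => T ^ (-θ)) atTop (nhds 0) := tendsto_rpow_neg_atTop hθ
      have h5 : (0 : ℝ) < min (z j / 2) 1 := lt_min (by have := hz0 j; positivity) one_pos
      exact (h4.eventually (gt_mem_nhds h5)).mono fun T hT => le_of_lt hT
    filter_upwards [h2, h3, eventually_ge_atTop 1] with T hT hT3 hT1 q hq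
    by_contra hcon
    push Not at hcon
    refine hT ⟨q, ?_, fun j => by rw [norm_emb]; exact hcon j⟩
    have hq' : Exceptional d ρ K ξ (⌈A⌉₊ : ℝ) (R i t) T q := by
      obtain ⟨g1, P, g2, g3, g4⟩ := hq
      refine ⟨g1, P, g2, fun s => ?_, g4⟩
      obtain ⟨c', g5, g6⟩ := g3 s
      exact ⟨c', fun u φ => (g5 u φ).trans (Real.rpow_le_rpow_of_exponent_le hT1 (Nat.le_ceil A)), g6⟩
    have h4 : q ∈ Exc n d ρ K (algebraMap K ℂ) ξ ((k : ℝ) + 1)⁻¹ ((k : ℝ) + 1) (⌈A⌉₊ : ℝ) (R i t) T := by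
      refine exc_of hρ hq' fun j => ?_
      have h5 := hkj j
      have h6 := hz0 j
      have h7 := (abs_le.1 (hcon j))
      have h8 := hT3 j
      have h9 : T ^ (-θ) ≤ z j / 2 := h8.trans (min_le_left _ _)
      have h10 : T ^ (-θ) ≤ 1 := h8.trans (min_le_right _ _)
      have h11 : 0 < 2 / z j := by positivity
      constructor
      · have h12 : ((k : ℝ) + 1)⁻¹ ≤ z j / 2 := by
          rw [inv_le_comm₀ (by positivity) (by positivity), inv_div]
          linarith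
        linarith [h7.1]
      · linarith [h7.2]
    rw [hi]
    rw [hi] at h4
    exact ⟨hρ, h4⟩

/-- The powers of the square root of `π`, and `1`. -/
def powers : Set ℂ := insert 1 (Set.range fun s : ℤ => ((√Real.pi : ℝ) : ℂ) ^ s)

theorem powers_countable : powers.Countable := (Set.countable_range _).insert 1

/-- The exponents of the two monomials. -/
noncomputable def pos {n m : ℕ} (e : Fin n → Fin m → ℤ) : Fin n × Fin m →₀ ℕ :=
  Finsupp.equivFunOnFinite.symm fun x => (e x.1 x.2).toNat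

theorem pos_apply {n m : ℕ} (e : Fin n → Fin m → ℤ) (x : Fin n × Fin m) : pos e x = (e x.1 x.2).toNat := rfl

theorem pos_ne {n m : ℕ} {e : Fin n → Fin m → ℤ} (he : e ≠ 0) : pos e ≠ pos (-e) := by
  intro h
  refine he (funext fun j => funext fun i => ?_)
  have h1 := DFunLike.congr_fun h (j, i)
  rw [pos_apply, pos_apply] at h1
  have h2 : (e j i).toNat = (-(e j i)).toNat := h1
  show e j i = 0
  omega

/-- The relation between the numbers `B(q_j, ρ_i)` given by a product which is an algebraic multiple of a power of `√π`. -/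
theorem exceptional_of {n m d : ℕ} {ρ : Fin m → ℝ} (hρ : ∀ i, 0 < ρ i) {K : IntermediateField ℚ ℂ} [NumberField K]
    {s : ℤ} {A R T : ℝ} (hT : 0 ≤ T) {q : Fin n → ℚ} (hq : ∀ j, 0 < q j ∧ ((q j).den : ℝ) ≤ T)
    {e : Fin n → Fin m → ℤ} (he : e ≠ 0) (hd : ∀ j i, |e j i| ≤ d) {u v : 𝓞 K} (hv : v ≠ 0)
    (huv : ∀ φ : K →+* ℂ, ‖φ u‖ ≤ T ^ A ∧ ‖φ v‖ ≤ T ^ A)
    (h : ((∏ j, ∏ i, (Real.Gamma (q j) * Real.Gamma (ρ i) / Real.Gamma (q j + ρ i)) ^ e j i : ℝ) : ℂ) =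
      algebraMap K ℂ u / algebraMap K ℂ v * ((√Real.pi : ℝ) : ℂ) ^ s) :
    Exceptional d ρ K ![1, ((√Real.pi : ℝ) : ℂ) ^ s] A R T q := by
  classical
  have hv0 : algebraMap K ℂ v ≠ 0 := by
    intro h0
    exact hv (by
      have h1 : (v : K) = 0 := (map_eq_zero (algebraMap K ℂ)).1 h0
      exact_mod_cast h1)
  obtain ⟨w, hw⟩ : ∃ w : ℂ, w = ((√Real.pi : ℝ) : ℂ) ^ s := ⟨_, rfl⟩
  rw [← hw] at h ⊢
  have hc : ∀ t, (MvPolynomial.monomial (pos e) (algebraMap K ℂ v) +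
      MvPolynomial.monomial (pos (-e)) (-(w * algebraMap K ℂ u)) : MvPolynomial (Fin n × Fin m) ℂ).coeff t =
      (if pos e = t then algebraMap K ℂ v else 0) + if pos (-e) = t then -(w * algebraMap K ℂ u) else 0 := by
    intro t
    rw [MvPolynomial.coeff_add, MvPolynomial.coeff_monomial, MvPolynomial.coeff_monomial]
  refine ⟨hq, MvPolynomial.monomial (pos e) (algebraMap K ℂ v) +
    MvPolynomial.monomial (pos (-e)) (-(w * algebraMap K ℂ u)), fun x => ?_, fun t => ?_, pos e, ?_, ?_⟩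
  · rw [MvPolynomial.degreeOf_le_iff]
    intro t ht
    rw [MvPolynomial.mem_support_iff, hc] at ht
    have h1 := hd x.1 x.2
    by_cases h2 : pos e = t
    · rw [← h2, pos_apply]
      have := (abs_le.1 h1).2
      omega
    · by_cases h3 : pos (-e) = t
      · rw [← h3, pos_apply]
        have := (abs_le.1 h1).1
        show (-(e x.1 x.2)).toNat ≤ d
        omega
      · rw [if_neg h2, if_neg h3, add_zero] at ht
        exact absurd rfl ht
  · refine ⟨![if pos e = t then v else 0, if pos (-e) = t then -u else 0], fun i φ => ?_, ?_⟩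
    · have h0 : (0 : ℝ) ≤ T ^ A := Real.rpow_nonneg hT A
      fin_cases i
      · show ‖φ ((if pos e = t then v else 0 : 𝓞 K) : K)‖ ≤ T ^ A
        split_ifs
        · exact (huv φ).2
        · simpa using h0
      · show ‖φ ((if pos (-e) = t then -u else 0 : 𝓞 K) : K)‖ ≤ T ^ A
        split_ifs
        · have h1 : φ ((-u : 𝓞 K) : K) = -φ u := by simp
          rw [h1, norm_neg]
          exact (huv φ).1
        · simpa using h0
    · rw [hc, Fin.sum_univ_two]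
      show _ = 1 * algebraMap K ℂ ((if pos e = t then v else 0 : 𝓞 K) : K) +
        w * algebraMap K ℂ ((if pos (-e) = t then -u else 0 : 𝓞 K) : K)
      congr 1
      · split_ifs <;> simp
      · split_ifs <;> simp
  · rw [hc, if_pos rfl, if_neg (Ne.symm (pos_ne he)), add_zero]
    exact hv0
  · have hX : ∀ x : Fin n × Fin m, B (q x.1) (ρ x.2) = Real.Gamma (q x.1) * Real.Gamma (ρ x.2) /
        Real.Gamma (q x.1 + ρ x.2) := by
      intro x
      have h4 : (0 : ℝ) < (q x.1 : ℝ) := by exact_mod_cast (hq x.1).1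
      exact TH818.AP.betaInt (ρ x.2) (q x.1) (hρ x.2) h4
    have hX0 : ∀ x : Fin n × Fin m, (B (q x.1) (ρ x.2) : ℂ) ≠ 0 := by
      intro x
      have h4 : (0 : ℝ) < (q x.1 : ℝ) := by exact_mod_cast (hq x.1).1
      have h5 : B (q x.1) (ρ x.2) ≠ 0 := by
        rw [hX]
        exact (div_pos (mul_pos (Real.Gamma_pos_of_pos h4) (Real.Gamma_pos_of_pos (hρ x.2)))
          (Real.Gamma_pos_of_pos (add_pos h4 (hρ x.2)))).ne'
      exact_mod_cast h5
    have hp : ∀ f : Fin n → Fin m → ℤ, ∀ c : ℂ,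
        MvPolynomial.aeval (fun x : Fin n × Fin m => (B (q x.1) (ρ x.2) : ℂ)) (MvPolynomial.monomial (pos f) c) =
          c * ∏ x : Fin n × Fin m, (B (q x.1) (ρ x.2) : ℂ) ^ (f x.1 x.2).toNat := by
      intro f c
      rw [MvPolynomial.aeval_monomial, Finsupp.prod_fintype _ _ fun i => pow_zero _]
      rfl
    have hz : ∏ x : Fin n × Fin m, (B (q x.1) (ρ x.2) : ℂ) ^ (e x.1 x.2).toNat =
        (∏ x : Fin n × Fin m, (B (q x.1) (ρ x.2) : ℂ) ^ ((-e) x.1 x.2).toNat) *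
          (algebraMap K ℂ u / algebraMap K ℂ v * w) := by
      rw [← h, ← Fintype.prod_prod_type' (f := fun j i => (Real.Gamma (q j) * Real.Gamma (ρ i) /
        Real.Gamma (q j + ρ i)) ^ e j i)]
      push_cast
      rw [← Finset.prod_mul_distrib]
      refine Finset.prod_congr rfl fun x _ => ?_
      have h6 : ((Real.Gamma (q x.1) : ℝ) : ℂ) * ((Real.Gamma (ρ x.2) : ℝ) : ℂ) /
          ((Real.Gamma (q x.1 + ρ x.2) : ℝ) : ℂ) = (B (q x.1) (ρ x.2) : ℂ) := by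
        rw [hX]
        push_cast
        rfl
      rw [h6, ← zpow_natCast, ← zpow_natCast, ← zpow_add₀ (hX0 x)]
      congr 1
      show ((e x.1 x.2).toNat : ℤ) = ((-(e x.1 x.2)).toNat : ℤ) + e x.1 x.2
      omega
    have h7 : MvPolynomial.aeval (fun x : Fin n × Fin m => (B (q x.1) (ρ x.2) : ℂ))
        (MvPolynomial.monomial (pos e) (algebraMap K ℂ v) +
          MvPolynomial.monomial (pos (-e)) (-(w * algebraMap K ℂ u)) : MvPolynomial (Fin n × Fin m) ℂ) = 0 := by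
      rw [map_add, hp, hp, hz]
      field_simp
      ring
    rw [h7, norm_zero]
    exact mul_nonneg (Real.rpow_nonneg hT _) (norm_nonneg _)

/-- The theorem. -/
theorem result (n : ℕ) (X : Set ℂ) (hX : X.Countable) (Y : Set ℝ) (hY : Y.Countable) (θ : ℝ) (hθ : 0 < θ) :
    ∃ Z : Set (Fin n → ℝ), dimH Z ≤ ENNReal.ofReal (2 * ((n - 1 : ℕ) : ℝ) / θ) ∧ ∀ z, z ∉ Z → (∀ j, 0 < z j) →
      ∀ (m : ℕ) (ρ : Fin m → ℝ), Generic ρ → (∀ i, ρ i ∈ Y) →
      ∀ (K : IntermediateField ℚ ℂ) [NumberField K] (d : ℕ) (A : ℝ),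
        (∀ (g : ℕ) (ξ : Fin g → ℂ), (∀ i, ξ i ∈ X) → ∃ R : ℝ, ∀ᶠ T : ℝ in atTop, ∀ q : Fin n → ℚ,
          Exceptional d ρ K ξ A R T q → ∃ j, T ^ (-θ) < |(q j : ℝ) - z j|) ∧
        ∀ s : ℤ, ∀ᶠ T : ℝ in atTop, ∀ q : Fin n → ℚ, (∀ j, 0 < q j ∧ ((q j).den : ℝ) ≤ T) →
          (∀ j, |(q j : ℝ) - z j| ≤ T ^ (-θ)) →
          ∀ e : Fin n → Fin m → ℤ, e ≠ 0 → (∀ j i, |e j i| ≤ d) →
          ∀ u v : 𝓞 K, v ≠ 0 → (∀ φ : K →+* ℂ, ‖φ u‖ ≤ T ^ A ∧ ‖φ v‖ ≤ T ^ A) →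
            ((∏ j, ∏ i, (Real.Gamma (q j) * Real.Gamma (ρ i) / Real.Gamma (q j + ρ i)) ^ e j i : ℝ) : ℂ) ≠
              algebraMap K ℂ u / algebraMap K ℂ v * ((√Real.pi : ℝ) : ℂ) ^ s := by
  obtain ⟨Z, hZ, H⟩ := near n (X ∪ powers) (hX.union powers_countable) Y hY θ hθ
  refine ⟨Z, hZ, fun z hz hz0 m ρ hρ hρY K hK d A => ⟨fun g ξ hξ => ?_, fun s => ?_⟩⟩
  · exact H z hz hz0 m ρ hρ hρY K g ξ (fun i => Or.inl (hξ i)) d A
  · obtain ⟨R, H1⟩ := H z hz hz0 m ρ hρ hρY K 2 ![1, ((√Real.pi : ℝ) : ℂ) ^ s] (by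
      intro i
      refine Or.inr ?_
      fin_cases i
      · exact Set.mem_insert _ _
      · exact Set.mem_insert_of_mem _ ⟨s, rfl⟩) d A
    filter_upwards [H1, eventually_ge_atTop 0] with T hT hT0 q hq hqz e he hd u v hv huv heq
    obtain ⟨j, hj⟩ := hT q (exceptional_of hρ.1 hT0 hq he hd hv huv heq)
    exact absurd (hqz j) (not_le.2 hj)

end Pool.Agent.Results.MP_c2409d_nt.NearGivenPoints
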