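import Pool.Agent.Q189.IB.Tup5

/-!
# Near relations between incomplete beta integrals, beta values and arbitrary constants

Let `(u_c, v_c)`, `c < s`, be pairs of positive rational numbers which are not integers, no two pairs congruent modulo `ℤ²`.
For real algebraic integers `x_1, …, x_k > 1` we cut the beta integrals `B_c = B(u_c, v_c)` at the points `1/x_j`:
`b_jc = ∫_0^(1/x_j) t^(u_c-1) (1-t)^(v_c-1) dt` and `b'_jc = ∫_(1/x_j)^1 = B_c - b_jc`. (These are the periods of `H^1` of the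
Fermat curves relative to two points.) For almost all tuples `x`:

* the numbers `b_jc` have a measure of algebraic independence in each degree `d`: `|P(b, x)| ≥ H^(-B)` for all integral
  polynomials `P` of degree at most `d` and height at most `H` with `P(·, x) ≠ 0`;
* the only near relations between the `2 k s` numbers `b_jc`, `b'_jc`, the `x_j` and arbitrary constants `ζ_1, …, ζ_g` (for
  example beta values, values of the Gamma function) are those which follow from `b_jc + b'_jc = B_c`: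
  `|P(y, B - y, ζ, x)| ≤ (H max(1, |y|))^B |P(b, b', ζ, x)|` for ALL `y`.

For Rohrlich's question this means that the approximations to `∏ Γ(a_j) / π^(r/2)` are visible at almost all integers: for a
tuple `a_0, …, a_k` of rational numbers, none in `{0, -1, …}`, let `a'_j ∈ (0, 1]` be the representatives modulo `1`,
`(u_c, v_c)` the different pairs `({a'_j}, {a'_(j+1) + ⋯ + a'_k})` with nonzero entries and `m_c` their multiplicities, and
`w = π^(r/2) / Γ(∑ a'_j)`. There is a rational number `R ≠ 0` such that for almost all integers `n ≥ 2` all integers `c_0`,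
`c_i` with `|c_0|, |c_i| ≤ H`, `i ∈ ∏ {0, …, m_c}`, satisfy
`|c_i ∏ Γ(a_j) + c_0 R ∏_c binom(m_c, i_c) π^(r/2)| ≤ H^B |c_0 w + ∑_i c_i ∏_c b_c^(i_c) b'_c^(m_c - i_c)|`:
a small linear form in `w` and the products of the pieces at `1/n` is near to a multiple of the obvious one
`∏ B_c^(m_c) = ∑_i ∏_c binom(m_c, i_c) ∏_c b_c^(i_c) b'_c^(m_c - i_c)`, and comes from a good rational approximation to
`∏ Γ(a_j) / π^(r/2)`.

Proof. The functions `h_c(z) = z^(-u) (1-z)^(-v) ∫_0^z t^(u-1) (1-t)^(v-1) dt` are G-functions which are algebraically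
independent over `ℚ(z)` (with `1` a connected family), and the transfer of near relations at almost all tuples of algebraic
integers (`Pool.Agent.Q189.MF`, helper246's bootstrap) applies to them, with the constants `B_c, ζ`. A polynomial in the
numbers `b_jc = (1/x_j)^(u_c) (1 - 1/x_j)^(v_c) h_c(1/x_j)` is one of `L = D^(2k)` conjugate polynomials in the `h_c(1/x_j)` with
respect to `(1/x_j)^(1/D)` and `(1 - 1/x_j)^(1/D)`, the product of which is integral (lemma of helper190). All conjugates have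
coefficients of the same absolute values, so the product is at some point of a grid as large as the `L`-th power of
the largest coefficient (lemma of helper68), and the other `L - 1` factors at `h` can be cancelled.
-/

set_option autoImplicit false

namespace Pool.Agent.Results.MP_c2409d_nt.NearRelationsBetaIntegrals

/-- the incomplete beta integral `∫_0^x t^(u-1) (1-t)^(v-1) dt` -/
noncomputable def beta (u v x : ℝ) : ℝ := ∫ t in (0 : ℝ)..x, t ^ (u - 1) * (1 - t) ^ (v - 1)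

/-- the integrals `∫_0^(1/t_j) t^(u_c-1) (1-t)^(v_c-1) dt` -/
noncomputable def first {k s : ℕ} (u v : Fin s → ℚ) (t : Fin k → ℝ) (a : Fin k × Fin s) : ℂ :=
  ((beta (u a.2) (v a.2) (1 / t a.1) : ℝ) : ℂ)

/-- the two pieces `∫_0^(1/t_j) t^(u_c-1) (1-t)^(v_c-1) dt` and
`∫_0^(1-1/t_j) t^(v_c-1) (1-t)^(u_c-1) dt = ∫_(1/t_j)^1 t^(u_c-1) (1-t)^(v_c-1) dt` of the beta integrals -/
noncomputable def pieces {k s : ℕ} (u v : Fin s → ℚ) (t : Fin k → ℝ) (a : Fin k × Fin s × Fin 2) : ℂ :=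
  (![beta (u a.2.1) (v a.2.1) (1 / t a.1), beta (v a.2.1) (u a.2.1) (1 - 1 / t a.1)] a.2.2 : ℝ)

/-- `y_jc` and `B(u_c, v_c) - y_jc` -/
noncomputable def split {k s : ℕ} (u v : Fin s → ℚ) (y : Fin k × Fin s → ℂ) (a : Fin k × Fin s × Fin 2) : ℂ :=
  ![y (a.1, a.2.1), ((beta (u a.2.1) (v a.2.1) 1 : ℝ) : ℂ) - y (a.1, a.2.1)] a.2.2

/-- the algebraic integers of degree at most `m` all of whose conjugates have absolute value at most `T` -/
def Ints (m T : ℕ) : Set ℂ :=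
  {α | IsIntegral ℤ α ∧ (minpoly ℚ α).natDegree ≤ m ∧ ∀ z : ℂ, Polynomial.aeval z (minpoly ℚ α) = 0 → ‖z‖ ≤ T}

/-- The two inequalities at the height `H` (nothing is asserted if some coordinate of `x` is not real and `> 1`): the lower
bound for the polynomials in the numbers `b_jc`, and the transfer of near relations of the pieces. -/
def Good {k s g : ℕ} (u v : Fin s → ℚ) (d B : ℕ) (ζ : Fin g → ℂ) (x : Fin k → ℂ) (H : ℝ) : Prop :=
  ∀ t : Fin k → ℝ, (∀ j, 1 < t j ∧ ((t j : ℝ) : ℂ) = x j) →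
    (∀ P : MvPolynomial ((Fin k × Fin s) ⊕ Fin k) ℤ, P.totalDegree ≤ d → (∀ e, |((P.coeff e : ℤ) : ℝ)| ≤ H) →
      (∃ w : Fin k × Fin s → ℂ, MvPolynomial.aeval (Sum.elim w x) P ≠ 0) →
      1 ≤ H ^ B * ‖MvPolynomial.aeval (Sum.elim (first u v t) x) P‖) ∧
    ∀ P : MvPolynomial ((Fin k × Fin s × Fin 2) ⊕ (Fin g ⊕ Fin k)) ℤ, P.totalDegree ≤ d →
      (∀ e, |((P.coeff e : ℤ) : ℝ)| ≤ H) → ∀ y : Fin k × Fin s → ℂ,
        ‖MvPolynomial.aeval (Sum.elim (split u v y) (Sum.elim ζ x)) P‖ ≤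
          (H * max 1 ‖y‖) ^ B * ‖MvPolynomial.aeval (Sum.elim (pieces u v t) (Sum.elim ζ x)) P‖

/-- the representative modulo `1` in `(0, 1]` -/
def rep (a : ℚ) : ℚ := a - ⌈a⌉ + 1

/-- `b_(j+1) + ⋯ + b_k` -/
def tail {k : ℕ} (b : Fin (k + 1) → ℚ) (j : Fin k) : ℚ := ∑ i : Fin (k + 1), if j.castSucc < i then b i else 0

/-- `(u_c, v_c)`, `c < s`, are the different pairs `({b_j}, {b_(j+1) + ⋯ + b_k})`, `j < k`, of fractional parts with both
entries nonzero, and `m_c` is the number of the `j < k` with the pair `(u_c, v_c)`. -/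
structure Pairs {k : ℕ} (b : Fin (k + 1) → ℚ) {s : ℕ} (u v : Fin s → ℚ) (m : Fin s → ℕ) : Prop where
  /-- the pairs are different -/
  inj : ∀ c c', u c = u c' → v c = v c' → c = c'
  /-- the entries are not zero -/
  ne : ∀ c, u c ≠ 0 ∧ v c ≠ 0
  /-- each of them occurs -/
  mem : ∀ c, ∃ j : Fin k, Int.fract (b j.castSucc) = u c ∧ Int.fract (tail b j) = v c
  /-- there are no others -/
  all : ∀ j : Fin k, Int.fract (b j.castSucc) ≠ 0 → Int.fract (tail b j) ≠ 0 →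
    ∃ c, Int.fract (b j.castSucc) = u c ∧ Int.fract (tail b j) = v c
  /-- the multiplicities -/
  card : ∀ c, m c = (Finset.univ.filter fun j : Fin k => Int.fract (b j.castSucc) = u c ∧ Int.fract (tail b j) = v c).card

/-- the product of the `b_c(n)^(i_c) b'_c(n)^(m_c - i_c)`, where `b_c(n)` and `b'_c(n)` are the two pieces for `t = n` -/
noncomputable def product {s : ℕ} (u v : Fin s → ℚ) (m : Fin s → ℕ) (n : ℕ) (i : ∀ c, Fin (m c + 1)) : ℝ :=
  ∏ c, beta (u c) (v c) (1 / n) ^ (i c : ℕ) * beta (v c) (u c) (1 - 1 / n) ^ (m c - i c)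

/-- the number `π^(r/2) / Γ(∑ a'_j)`, `r = k + 1` -/
noncomputable def quotient {k : ℕ} (a : Fin (k + 1) → ℚ) : ℝ :=
  Real.pi ^ (((k + 1 : ℕ) : ℝ) / 2) / Real.Gamma ((∑ j, rep (a j) : ℚ) : ℝ)

/-- each linear form of height `H` in `w` and the products at `n` is near to a multiple of the obvious one -/
def NearObvious {k : ℕ} (a : Fin (k + 1) → ℚ) (R : ℚ) {s : ℕ} (u v : Fin s → ℚ) (m : Fin s → ℕ) (B n : ℕ) (H : ℝ) : Prop :=
  ∀ (c₀ : ℤ) (cs : (∀ c, Fin (m c + 1)) → ℤ), |(c₀ : ℝ)| ≤ H → (∀ i, |(cs i : ℝ)| ≤ H) → ∀ i,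
    |(cs i : ℝ) * ∏ j, Real.Gamma (a j : ℝ) + c₀ * R * ((∏ c, (m c).choose (i c) : ℕ) : ℝ) *
      Real.pi ^ (((k + 1 : ℕ) : ℝ) / 2)| ≤ H ^ B *
        |(c₀ : ℝ) * quotient a + ∑ i : ∀ c, Fin (m c + 1), (cs i : ℝ) * product u v m n i|

/-- (1) the two inequalities at almost all tuples of algebraic integers; (2) products of Gamma values -/
theorem result :
    (∀ (s : ℕ) (u v : Fin s → ℚ), (∀ c, 0 < u c ∧ 0 < v c) → (∀ c (z : ℤ), u c ≠ z ∧ v c ≠ z) →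
      (∀ c c', c ≠ c' → ¬ ((∃ z : ℤ, u c - u c' = z) ∧ ∃ z : ℤ, v c - v c' = z)) → ∀ k g d m : ℕ, 1 ≤ m →
      ∃ (B : ℕ) (C c : ℝ), 0 < c ∧ ∀ T : ℕ, 1 ≤ T →
        (∃ H₀ : ℝ, ∀ H₁ : ℝ, H₀ ≤ H₁ → ∀ ζ : Fin g → ℂ,
          (({x : Fin k → ℂ | (∀ j, x j ∈ Ints m T) ∧ ¬ ∀ H : ℝ, H₁ ≤ H → H ≤ H₁ ^ Real.exp ((T : ℝ) ^ c) →
            Good u v d B ζ x H}.ncard : ℕ) : ℝ) ≤ C * (T : ℝ) ^ (-c) * (((Ints m T).ncard : ℕ) : ℝ) ^ k) ∧
        ∀ ζ : Fin g → ℂ, (({x : Fin k → ℂ | (∀ j, x j ∈ Ints m T) ∧ ¬ ∀ N₀ : ℕ, ∃ N, N₀ ≤ N ∧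
          (({l : ℕ | l < N ∧ ¬ ∀ H : ℝ, 2 ^ (2 ^ l) ≤ H → H ≤ 2 ^ (2 ^ (l + 1)) →
            Good u v d B ζ x H}.ncard : ℕ) : ℝ) ≤ (T : ℝ) ^ (-c) * N}.ncard : ℕ) : ℝ) ≤
              C * (T : ℝ) ^ (-c) * (((Ints m T).ncard : ℕ) : ℝ) ^ k) ∧
    ∀ (k : ℕ) (a : Fin (k + 1) → ℚ), (∀ j (n : ℕ), a j ≠ -(n : ℚ)) →
      ∀ (s : ℕ) (u v : Fin s → ℚ) (m : Fin s → ℕ), Pairs (fun j => rep (a j)) u v m →
        ∃ R : ℚ, R ≠ 0 ∧ ∃ (B : ℕ) (C c : ℝ), 0 < c ∧ ∀ T : ℕ, 1 ≤ T →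
          (∃ H₀ : ℝ, ∀ H₁ : ℝ, H₀ ≤ H₁ →
            (({n : ℕ | 2 ≤ n ∧ n ≤ T ∧ ¬ ∀ H : ℝ, H₁ ≤ H → H ≤ H₁ ^ Real.exp ((T : ℝ) ^ c) →
              NearObvious a R u v m B n H}.ncard : ℕ) : ℝ) ≤ C * (T : ℝ) ^ (1 - c)) ∧
          (({n : ℕ | 2 ≤ n ∧ n ≤ T ∧ ¬ ∀ N₀ : ℕ, ∃ N, N₀ ≤ N ∧
            (({l : ℕ | l < N ∧ ¬ ∀ H : ℝ, 2 ^ (2 ^ l) ≤ H → H ≤ 2 ^ (2 ^ (l + 1)) →
              NearObvious a R u v m B n H}.ncard : ℕ) : ℝ) ≤ (T : ℝ) ^ (-c) * N}.ncard : ℕ) : ℝ) ≤ C * (T : ℝ) ^ (1 - c) := by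
  refine ⟨fun s u v h1 h2 h3 k g d m hm => ?_, fun k a ha s u v m hE => ?_⟩
  · exact Pool.Agent.Q189.IB.TUP h1 h2 h3 k g d m hm
  · exact Pool.Agent.Q189.IB.LING ha (⟨hE.inj, hE.ne, hE.mem, hE.all, hE.card⟩)

end Pool.Agent.Results.MP_c2409d_nt.NearRelationsBetaIntegrals
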