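import Pool.Agent.Q271.RG.Asm

/-!
# Rohrlich's conjecture: a zero-one law for every denominator

Fix `D ≥ 2`. If the open direction of the question fails for ONE tuple of rational numbers with common
denominator `D` (the product of the Gamma values is an algebraic multiple of `π ^ (r / 2)`, but the
identity for the fractional parts fails), then it fails for 100 percent of the tuples to which it
applies: among the `r`-tuples of fractions `1/D, 2/D, …, D/D` for which the product is an algebraic
multiple of `π ^ (r / 2)`, the proportion of those which satisfy the identity is at most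
`C √(log r / r)`, and tends to zero. There is no hypothesis; nothing from transcendence theory is used.

Idea of the proof. Let `V` be the group generated by the pairs (fractional parts of `m x`, minus `1/2`;
`Γ(x) / √π` modulo algebraic numbers). By the reflection formula the fractions in `(0, 1)` define a
symmetric random walk on `V`. The number of words of length `2n` with sum `v` is a positive definite
function of `v`, and it is almost equal to the number of those with sum zero for all `v = k w` with
`k ≤ c √(n / log n)`. Here `w` is the sum of a counterexample; its second component is zero, the first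
one is not. So there are at least `c √(n / log n)` times as many words with algebraic product as words
which satisfy the identity. Integral entries (and odd `r`) need an additional argument.
-/

open scoped Classical

set_option linter.unusedSectionVars false

namespace Pool.Agent.Results.MP_c2409d_nt.ZeroOneLaw

/-- The product of the Gamma values is an algebraic multiple of `π ^ (r / 2)`. -/
def AlgebraicMultiple {r : ℕ} (a : Fin r → ℚ) : Prop :=
  ∃ α : ℝ, IsAlgebraic ℚ α ∧ ∏ i, Real.Gamma (a i : ℝ) = α * Real.pi ^ ((r : ℝ) / 2)

/-- The sum of the fractional parts of the `m a_i` is `r / 2` for all `m` in `{1, …, D - 1}` which are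
prime to `D`. -/
def Identity (D : ℕ) {r : ℕ} (a : Fin r → ℚ) : Prop :=
  ∀ m : ℕ, 1 ≤ m → m < D → m.Coprime D → ∑ i, Int.fract ((m : ℚ) * a i) = (r : ℚ) / 2

/-- The fractions `1/D, 2/D, …, D/D`. -/
noncomputable def frac (D : ℕ) (t : Fin D) : ℚ := ((t : ℕ) + 1) / (D : ℚ)

/-- **A zero-one law for Rohrlich's conjecture.** -/
theorem result (D : ℕ) (hD : 2 ≤ D)
    (hex : ∃ (s : ℕ) (b : Fin s → ℚ), (∀ i, (∀ n : ℕ, b i ≠ -(n : ℚ)) ∧ ∃ z : ℤ, (D : ℚ) * b i = z) ∧
      AlgebraicMultiple b ∧ ¬ Identity D b) :
    ∃ C : ℝ, ∀ r : ℕ, 2 ≤ r →
      (Nat.card {t : Fin r → Fin D //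
        AlgebraicMultiple (fun i => frac D (t i)) ∧ Identity D (fun i => frac D (t i))} : ℝ) ≤
        C * Real.sqrt (Real.log r / r) *
          Nat.card {t : Fin r → Fin D // AlgebraicMultiple (fun i => frac D (t i))} := by
  obtain ⟨s, b, hb, h1, h2⟩ := hex
  obtain ⟨C, _, h⟩ := Pool.Agent.Q271.RG.main_law hD b hb h1 h2
  exact ⟨C, h⟩

end Pool.Agent.Results.MP_c2409d_nt.ZeroOneLaw
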